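import Pool.Agent.Y262.QE.Stm

/-! QE MUL: multiplication forms on `L²`. -/

set_option autoImplicit false

open Set Filter Topology MeasureTheory

noncomputable section

namespace Pool.Agent.Y469.QE

open Pool.Agent.Y262.QE

theorem mul : StMul := by
  intro M _ μ w hw C hC
  have hm : ∀ f : Lp ℝ 2 μ, MemLp (fun x => w x * f x) 2 μ := fun f => by
    refine MemLp.of_le_mul (c := C) (Lp.memLp f)
      (hw.aestronglyMeasurable.mul (Lp.aestronglyMeasurable f)) (ae_of_all _ fun x => ?_)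
    rw [norm_mul]
    exact mul_le_mul_of_nonneg_right (by rw [Real.norm_eq_abs]; exact hC x) (norm_nonneg _)
  let T0 : Lp ℝ 2 μ →ₗ[ℝ] Lp ℝ 2 μ :=
    { toFun := fun f => (hm f).toLp _
      map_add' := by
        intro f g
        apply Lp.ext
        filter_upwards [(hm (f + g)).coeFn_toLp, (hm f).coeFn_toLp, (hm g).coeFn_toLp,
          Lp.coeFn_add f g, Lp.coeFn_add ((hm f).toLp _) ((hm g).toLp _)] with x h1 h2 h3 h4 h5
        rw [h1, h5, Pi.add_apply, h2, h3, h4, Pi.add_apply, mul_add]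
      map_smul' := by
        intro c f
        apply Lp.ext
        filter_upwards [(hm (c • f)).coeFn_toLp, (hm f).coeFn_toLp,
          Lp.coeFn_smul c f, Lp.coeFn_smul c ((hm f).toLp _)] with x h1 h2 h3 h4
        rw [h1, RingHom.id_apply, h4, Pi.smul_apply, h2, h3, Pi.smul_apply, smul_eq_mul, smul_eq_mul]
        ring }
  have hT0 : ∀ f : Lp ℝ 2 μ, (T0 f : M → ℝ) =ᵐ[μ] fun x => w x * f x :=
    fun f => (hm f).coeFn_toLp
  have hb : ∀ f : Lp ℝ 2 μ, ‖T0 f‖ ≤ C * ‖f‖ := by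
    intro f
    apply Lp.norm_le_mul_norm_of_ae_le_mul
    filter_upwards [hT0 f] with x h1
    rw [h1, norm_mul]
    exact mul_le_mul_of_nonneg_right (by rw [Real.norm_eq_abs]; exact hC x) (norm_nonneg _)
  let B : Lp ℝ 2 μ →ₗ[ℝ] Lp ℝ 2 μ →ₗ[ℝ] ℝ :=
    LinearMap.mk₂ ℝ (fun f g => inner ℝ (T0 f) g)
      (fun f f' g => by rw [map_add, inner_add_left])
      (fun c f g => by rw [map_smul, real_inner_smul_left, smul_eq_mul])
      (fun f g g' => by rw [inner_add_right])
      (fun c f g => by rw [real_inner_smul_right, smul_eq_mul])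
  have hB : ∀ f g, B f g = inner ℝ (T0 f) g := fun f g => rfl
  have hbd : ∀ f g, ‖B f g‖ ≤ C * ‖f‖ * ‖g‖ := by
    intro f g
    have h1 : ‖B f g‖ ≤ ‖T0 f‖ * ‖g‖ := by
      rw [hB]
      exact norm_inner_le_norm (𝕜 := ℝ) (T0 f) g
    exact h1.trans (mul_le_mul_of_nonneg_right (hb f) (norm_nonneg _))
  refine ⟨B.mkContinuous₂ C hbd, ?_⟩
  · intro f g
    have h1 : B.mkContinuous₂ C hbd f g = inner ℝ (T0 f) g := rfl
    rw [h1, L2.inner_def]
    apply integral_congr_ae
    filter_upwards [hT0 f] with x h2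
    rw [h2]
    simp only [RCLike.inner_apply, conj_trivial]
    ring

end Pool.Agent.Y469.QE
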