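import Pool.Agent.Y262.QE.Stm

/-! QE W: the Weyl estimate from the local one. -/

set_option autoImplicit false

open Set Filter Topology MeasureTheory

noncomputable section

namespace Pool.Agent.Y469.QE

open Pool.Agent.Y262.QE

theorem weyl (hgr : StGr) (hfin : StFin) (hw1 : StW1) : StW := by
  intro M _ _ _ _ μ D hD
  obtain ⟨hF1, -, -⟩ := hgr M μ D hD
  obtain ⟨hμ, -⟩ := hfin M μ D hD
  choose O C hO hp hC hκ using hw1 M μ D hD
  obtain ⟨t, ht⟩ := CompactSpace.elim_nhds_subcover O (fun p => (hO p).mem_nhds (hp p))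
  set S : ℝ := ∑ p ∈ t, C p with hS
  have hS0 : 0 ≤ S := Finset.sum_nonneg fun p _ => (hC p).le
  set C0 : ℝ := max 1 S with hC0
  have hC01 : 1 ≤ C0 := le_max_left _ _
  refine ⟨4 * t.card * C0, ?_⟩
  intro ε hε hε1
  have hr1 : 1 ≤ C0 / ε := by
    rw [le_div_iff₀ hε]; linarith
  have hsq1 : 1 ≤ Real.sqrt (C0 / ε) := by
    rw [Real.one_le_sqrt]; exact hr1
  set m : ℕ := ⌈Real.sqrt (C0 / ε)⌉₊ with hm
  have hm1 : Real.sqrt (C0 / ε) ≤ m := Nat.le_ceil _
  have hm2 : (m:ℝ) < Real.sqrt (C0 / ε) + 1 := Nat.ceil_lt_add_one (by linarith)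
  have hm0 : (1:ℝ) ≤ m := hsq1.trans hm1
  have hmpos : 0 < m := by
    have : (0:ℝ) < m := by linarith
    exact_mod_cast this
  have hsq : Real.sqrt (C0 / ε) ^ 2 = C0 / ε := Real.sq_sqrt (by positivity)
  have hmsq : C0 / ε ≤ (m:ℝ) ^ 2 := by
    rw [← hsq]; exact pow_le_pow_left₀ (Real.sqrt_nonneg _) hm1 2
  have hmsq2 : (m:ℝ) ^ 2 ≤ 4 * (C0 / ε) := by
    rw [← hsq]
    have : (m:ℝ) ≤ 2 * Real.sqrt (C0 / ε) := by linarith
    calc (m:ℝ) ^ 2 ≤ (2 * Real.sqrt (C0 / ε)) ^ 2 := pow_le_pow_left₀ (by linarith) this 2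
      _ = _ := by ring
  have hSm : S / (m:ℝ) ^ 2 ≤ ε := by
    rw [div_le_iff₀ (by positivity)]
    have h1 : C0 ≤ ε * (m:ℝ) ^ 2 := by
      rw [div_le_iff₀ hε] at hmsq; linarith
    exact (le_max_right _ _).trans h1
  choose κ0 hκ0 hκ1 using fun p => hκ p m hmpos
  let e := Fintype.equivFin (↥t × Fin (m * m))
  refine ⟨Fintype.card (↥t × Fin (m * m)), fun j => κ0 (e.symm j).1 (e.symm j).2, ?_, ?_, ?_⟩
  · rw [Fintype.card_prod, Fintype.card_coe, Fintype.card_fin]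
    push_cast
    have h1 : (m:ℝ) * m ≤ 4 * (C0 / ε) := by rw [← sq]; exact hmsq2
    calc (t.card : ℝ) * (m * m) ≤ t.card * (4 * (C0 / ε)) :=
          mul_le_mul_of_nonneg_left h1 (Nat.cast_nonneg _)
      _ = _ := by ring
  · intro j
    exact hκ0 _ _
  · intro F hF
    obtain ⟨hFc, -, -⟩ := hF1 F hF
    set G : ℝ := ∫ x, ‖D.gr F x‖ ^ 2 ∂μ with hG
    have hG0 : 0 ≤ G := integral_nonneg fun x => by positivity
    have hint : Integrable (fun x => (F x) ^ 2) μ :=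
      (hFc.pow 2).integrable_of_hasCompactSupport (HasCompactSupport.of_compactSpace _)
    have h1 : ∫ x, (F x) ^ 2 ∂μ ≤ ∑ p ∈ t, ∫ x in O p, (F x) ^ 2 ∂μ := by
      have h2 : ∀ p ∈ t, ∫ x in O p, (F x) ^ 2 ∂μ =
          ∫ x, (O p).indicator (fun x => (F x) ^ 2) x ∂μ := fun p _ =>
        (integral_indicator (hO p).measurableSet).symm
      rw [Finset.sum_congr rfl h2, ← integral_finsetSum]
      · apply integral_mono hint
        · exact integrable_finsetSum _ fun p _ => hint.indicator (hO p).measurableSet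
        · intro x
          have hx : x ∈ ⋃ p ∈ t, O p := by rw [ht]; trivial
          rw [Set.mem_iUnion₂] at hx
          obtain ⟨p, hpt, hxp⟩ := hx
          have h3 : (O p).indicator (fun x => (F x) ^ 2) x = (F x) ^ 2 :=
            Set.indicator_of_mem hxp _
          simp only
          rw [← h3]
          exact Finset.single_le_sum (f := fun p => (O p).indicator (fun x => (F x) ^ 2) x)
            (fun q _ => Set.indicator_nonneg (fun y _ => by positivity) x) hpt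
      · intro p _
        exact hint.indicator (hO p).measurableSet
    have h4 : ∑ p ∈ t, ∫ x in O p, (F x) ^ 2 ∂μ ≤
        ∑ p ∈ t, (C p / (m:ℝ) ^ 2 * G + ∑ i, (∫ x, F x * κ0 p i x ∂μ) ^ 2) :=
      Finset.sum_le_sum fun p _ => hκ1 p F hF
    have h5 : ∑ p ∈ t, (C p / (m:ℝ) ^ 2 * G + ∑ i, (∫ x, F x * κ0 p i x ∂μ) ^ 2) =
        S / (m:ℝ) ^ 2 * G + ∑ p ∈ t, ∑ i, (∫ x, F x * κ0 p i x ∂μ) ^ 2 := by
      rw [Finset.sum_add_distrib, ← Finset.sum_mul, ← Finset.sum_div]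
    have h6 : ∑ j : Fin (Fintype.card (↥t × Fin (m * m))),
        (∫ x, F x * κ0 (e.symm j).1 (e.symm j).2 x ∂μ) ^ 2 =
        ∑ p ∈ t, ∑ i, (∫ x, F x * κ0 p i x ∂μ) ^ 2 := by
      rw [e.symm.sum_comp (fun q : ↥t × Fin (m * m) => (∫ x, F x * κ0 q.1 q.2 x ∂μ) ^ 2),
        Fintype.sum_prod_type, ← Finset.sum_coe_sort t]
    rw [h6]
    calc ∫ x, (F x) ^ 2 ∂μ ≤ S / (m:ℝ) ^ 2 * G +
          ∑ p ∈ t, ∑ i, (∫ x, F x * κ0 p i x ∂μ) ^ 2 := by
          rw [← h5]; exact h1.trans h4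
      _ ≤ _ := by
          have := mul_le_mul_of_nonneg_right hSm hG0
          linarith

end Pool.Agent.Y469.QE
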